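import Pool.Agent.N70.EQ.Stm

/-!
Project EQ (helper70), part KB (helper426): the matrix of a multiplication in the fixed field.
-/

set_option autoImplicit false

namespace Pool.Agent.N426.EQ

open Polynomial Pool.Agent.N70.AW

/-- The sum over the cosets. -/
noncomputable def cs {k Z : Type} [Field k] [Field Z] [Algebra k Z] [FiniteDimensional k Z]
    (P : Subgroup (Z ≃ₐ[k] Z)) (y : Z) : Z :=
  ∑ᶠ x : (Z ≃ₐ[k] Z) ⧸ P, x.out y

theorem out_eq {k Z : Type} [Field k] [Field Z] [Algebra k Z]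
    (P : Subgroup (Z ≃ₐ[k] Z)) {y : Z} (hy : ∀ γ ∈ P, γ y = y) (g : Z ≃ₐ[k] Z) :
    (g : (Z ≃ₐ[k] Z) ⧸ P).out y = g y := by
  obtain ⟨p, hp⟩ := QuotientGroup.mk_out_eq_mul P g
  rw [hp, AlgEquiv.mul_apply, hy p.1 p.2]

theorem cs_fixed {k Z : Type} [Field k] [Field Z] [Algebra k Z] [FiniteDimensional k Z]
    (P : Subgroup (Z ≃ₐ[k] Z)) {y : Z} (hy : ∀ γ ∈ P, γ y = y) (σ : Z ≃ₐ[k] Z) :
    σ (cs P y) = cs P y := by
  have hfin : Finite ((Z ≃ₐ[k] Z) ⧸ P) := inferInstance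
  unfold cs
  rw [map_finsum σ (Set.toFinite _)]
  have h1 : ∀ x : (Z ≃ₐ[k] Z) ⧸ P, σ (x.out y) = (σ • x).out y := by
    intro x
    obtain ⟨g, rfl⟩ := QuotientGroup.mk_surjective x
    have e : σ • (g : (Z ≃ₐ[k] Z) ⧸ P) = ((σ * g : Z ≃ₐ[k] Z) : (Z ≃ₐ[k] Z) ⧸ P) := rfl
    rw [e, out_eq P hy, out_eq P hy]
    rfl
  simp_rw [h1]
  exact finsum_comp_equiv (MulAction.toPerm σ) (f := fun x : (Z ≃ₐ[k] Z) ⧸ P => x.out y)

theorem cs_sum {k Z : Type} [Field k] [Field Z] [Algebra k Z] [FiniteDimensional k Z]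
    (P : Subgroup (Z ≃ₐ[k] Z)) {m : ℕ} (e es : Fin m → Z)
    (hes : ∀ l, ∀ γ ∈ P, γ (es l) = es l) (h1 : ∑ l, e l * es l = 1)
    (h0 : ∀ γ : Z ≃ₐ[k] Z, γ ∉ P → ∑ l, e l * γ (es l) = 0) {w : Z} (hw : ∀ γ ∈ P, γ w = w) :
    ∑ l, e l * cs P (es l * w) = w := by
  classical
  have hfin : Fintype ((Z ≃ₐ[k] Z) ⧸ P) := Fintype.ofFinite _
  have e1 : ∀ l, cs P (es l * w) = ∑ x : (Z ≃ₐ[k] Z) ⧸ P, x.out (es l) * x.out w := by
    intro l
    unfold cs
    rw [finsum_eq_sum_of_fintype]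
    exact Finset.sum_congr rfl fun x _ => map_mul _ _ _
  simp_rw [e1, Finset.mul_sum]
  rw [Finset.sum_comm]
  have e2 : ∀ x : (Z ≃ₐ[k] Z) ⧸ P, ∑ l, e l * (x.out (es l) * x.out w) =
      if x = ((1 : Z ≃ₐ[k] Z) : (Z ≃ₐ[k] Z) ⧸ P) then w else 0 := by
    intro x
    have e3 : ∑ l, e l * (x.out (es l) * x.out w) = (∑ l, e l * x.out (es l)) * x.out w := by
      rw [Finset.sum_mul]
      exact Finset.sum_congr rfl fun l _ => by ring
    rw [e3]
    split_ifs with hx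
    · subst hx
      rw [out_eq P hw]
      have e4 : ∀ l, ((1 : Z ≃ₐ[k] Z) : (Z ≃ₐ[k] Z) ⧸ P).out (es l) = es l := by
        intro l
        rw [out_eq P (hes l)]
        rfl
      simp_rw [e4, h1]
      rw [one_mul]
      rfl
    · rw [h0, zero_mul]
      intro hP
      apply hx
      have h2 : ((x.out : Z ≃ₐ[k] Z) : (Z ≃ₐ[k] Z) ⧸ P) = x := Quotient.out_eq' x
      rw [← h2, QuotientGroup.eq, mul_one]
      exact P.inv_mem hP
  simp_rw [e2]
  simp

/-- **EQ/KB** -/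
theorem t_kb : Pool.Agent.N70.EQ.St_kb := by
  intro K Z _ _ _ _ _ P m e es he hes h1 h0 f hf
  have hfix : ∀ l l', ∀ γ ∈ P, γ (es l * (f * e l')) = es l * (f * e l') := by
    intro l l' γ hγ
    rw [map_mul, map_mul, hes l γ hγ, hf γ hγ, he l' γ hγ]
  have hr : ∀ x : Fin m × Fin m, ∃ r : RatFunc K,
      algebraMap (RatFunc K) Z r = cs P (es x.1 * (f * e x.2)) := by
    intro x
    have h2 := (IsGalois.mem_bot_iff_fixed (F := RatFunc K) (E := Z)
      (cs P (es x.1 * (f * e x.2)))).2 (fun σ => cs_fixed P (hfix x.1 x.2) σ)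
    exact IntermediateField.mem_bot.1 h2
  choose r hr using hr
  obtain ⟨b, hb⟩ := IsLocalization.exist_integer_multiples_of_finite (nonZeroDivisors K[X]) r
  choose F hF using hb
  refine ⟨b.1, Matrix.of fun l l' => F (l, l'), nonZeroDivisors.ne_zero b.2, fun l' => ?_⟩
  have h2 := cs_sum P e es hes h1 h0 (w := f * e l') (by
    intro γ hγ
    rw [map_mul, hf γ hγ, he l' γ hγ])
  rw [mul_assoc, ← h2, Finset.mul_sum]
  refine Finset.sum_congr rfl fun l _ => ?_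
  have h3 : pz Z (Matrix.of (fun l l' => F (l, l')) l l') = pz Z b.1 * cs P (es l * (f * e l')) := by
    have h4 := hr (l, l')
    change algebraMap (RatFunc K) Z (r (l, l')) = cs P (es l * (f * e l')) at h4
    unfold pz
    rw [← h4, ← map_mul]
    congr 1
    change algebraMap K[X] (RatFunc K) (F (l, l')) = _
    rw [hF (l, l'), Algebra.smul_def]
  rw [h3]
  ring

end Pool.Agent.N426.EQ
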